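import Pool.Agent.TH630.Tor.Seven2

/-!
# The torsions of the finite covers of a closed manifold need not converge

`G` is the discrete Heisenberg group and `Γ_i` is a chain of normal subgroups of finite index with
trivial intersection.

Let `a` be an element of `ℤ[G]`, and let `X(a) = (Nil³ ∨ S²) ∪ e³`, where `Nil³` is the
three-dimensional nilmanifold with fundamental group `G` and where the additional `3`-cell is
attached along `a ∈ ℤ[G] = π_2 (Nil³ ∨ S²)`. Then `π_1 X(a) = G`. Let `W` be a `7`-dimensional
orientable handlebody with handles of index at most three which is a thickening of `X(a)` and let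
`M(a)` be the double of `W`, i.e. the boundary of `W × [0,1]`. Then `M(a)` is a closed orientable
`7`-manifold with fundamental group `G`. Because it retracts to `W` by the folding map, the cellular
chain complex of its universal cover is the sum of the chain complex `C_*` of the universal cover
of `X(a)` and of the dual complex `C^{7-*}`. This is the complex `ThreeCx.sevenManifold`.

For `a = 1` and for `a = 1 + 10 t - 10 u t` the universal covers are `L²`-acyclic and of determinant
class. The normalised torsions of the finite covers of `M(a)` which belong to `Γ_i` differ for these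
two elements by `2 log |det a_i| / |G / Γ_i|`, with the images `a_i` of `1 + 10 t - 10 u t` over
`G / Γ_i`, and these numbers have no limit. Therefore at least one of the two manifolds is such that
the normalised torsions of its finite covers do not converge.
-/

namespace Pool.Agent.Results.MP_75c153_gt.FiniteCovers

open Pool.Agent.TH630.Tor Pool.Agent.Helper993 Pool.Agent.Helper993.HeisDet Filter Topology

theorem chain_strictAnti : StrictAnti chain := by
  intro i j hij
  refine lt_of_le_of_ne (chain_anti hij.le) fun h => ?_
  have h1 : (chain j).index = (chain i).index := by rw [h]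
  rw [chain_index, chain_index, ← pow_add, ← pow_add, ← pow_add, ← pow_add] at h1
  have h2 := Nat.pow_right_injective (by norm_num : 2 ≤ 3) h1
  omega

theorem result : ∃ (X : ThreeCx (Heis ℤ)) (N : ℕ → Subgroup (Heis ℤ)) (_ : ∀ i, (N i).Normal),
    Function.Surjective X.φ ∧ X.φ.ker = Subgroup.normalClosure (Set.range X.rel) ∧
    X.sevenManifold.DetL2Acyclic ∧
    N 0 = ⊤ ∧ StrictAnti N ∧ ⨅ i, N i = ⊥ ∧ (∀ i, (N i).index ≠ 0) ∧
    ∀ L : ℝ, ¬ Tendsto (fun i => (X.sevenManifold.quot (N i)).l2torsion) atTop (𝓝 L) := by
  obtain ⟨a, ha, h⟩ := exists_seven
  refine ⟨Nil3.addSphere a, chain, chain_normal, sphere_surj a, sphere_ker a, acyclic_seven ha,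
    chain_zero, chain_strictAnti, chain_inf, fun i => ?_, h⟩
  rw [chain_index]
  positivity

end Pool.Agent.Results.MP_75c153_gt.FiniteCovers
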